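import Mathlib

set_option autoImplicit false

/-!
# Semicontinuity of linear independence and inversion of binomial matrices
-/

namespace Pool.Agent.H932R2

open Polynomial

variable {K : Type*} [Field K]

/-- A linearly independent finite family has a family of dual functionals. -/
theorem exists_dual_map {W : Type*} [AddCommGroup W] [Module K W] {n : ℕ} (v : Fin n → W)
    (h : LinearIndependent K v) :
    ∃ g : W →ₗ[K] (Fin n → K), ∀ j, g (v j) = Pi.single j 1 := by
  classical
  have hinj : LinearMap.ker (Fintype.linearCombination K v) = ⊥ := by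
    rw [LinearMap.ker_eq_bot]
    exact linearIndependent_iff_injective_fintypeLinearCombination.1 h
  obtain ⟨g, hg⟩ := LinearMap.exists_leftInverse_of_injective _ hinj
  refine ⟨g, fun j => ?_⟩
  have h1 : Fintype.linearCombination K v (Pi.single j 1) = v j := by
    simp [Fintype.linearCombination_apply_single]
  rw [← h1]
  have := congrArg (fun f => f (Pi.single j 1)) hg
  simpa using this

/-- If a linear map sends a family to a family with nonzero determinant, the family is
linearly independent. -/
theorem li_of_det_ne_zero {W : Type*} [AddCommGroup W] [Module K W] {n : ℕ} (v : Fin n → W)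
    (g : W →ₗ[K] (Fin n → K)) (h : (Matrix.of fun i j => g (v j) i).det ≠ 0) :
    LinearIndependent K v := by
  classical
  rw [Fintype.linearIndependent_iff]
  intro c hc
  have h0 : (Matrix.of fun i j => g (v j) i).mulVec c = 0 := by
    ext i
    have h1 := congrArg (fun w => g w i) hc
    simp only [map_sum, map_smul, map_zero, Pi.zero_apply, Finset.sum_apply, Pi.smul_apply,
      smul_eq_mul] at h1
    rw [Matrix.mulVec, dotProduct]
    simp only [Matrix.of_apply, Pi.zero_apply]
    rw [← h1]
    exact Finset.sum_congr rfl fun j _ => mul_comm _ _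
  have h2 := Matrix.eq_zero_of_mulVec_eq_zero h h0
  intro i
  rw [h2]
  rfl

/-- Semicontinuity: if a polynomial family of finite families of vectors is linearly independent
at `t = 0`, it is so at some `t ≠ 0`. -/
theorem exists_ne_zero_li [Infinite K] {W : Type*} [AddCommGroup W] [Module K W] {n : ℕ} (D : ℕ)
    (v : Fin n → ℕ → W) (h0 : LinearIndependent K (fun j => v j 0)) :
    ∃ t : K, t ≠ 0 ∧
      LinearIndependent K (fun j => ∑ k ∈ Finset.range (D + 1), t ^ k • v j k) := by
  classical
  obtain ⟨g, hg⟩ := exists_dual_map _ h0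
  let A : Matrix (Fin n) (Fin n) K[X] := Matrix.of fun i j =>
    ∑ k ∈ Finset.range (D + 1), C (g (v j k) i) * X ^ k
  have hA : ∀ t : K, A.det.eval t =
      (Matrix.of fun i j => g (∑ k ∈ Finset.range (D + 1), t ^ k • v j k) i).det := by
    intro t
    rw [← Polynomial.coe_evalRingHom, RingHom.map_det]
    congr 1
    ext i j
    simp only [A, RingHom.mapMatrix_apply, Matrix.map_apply, Matrix.of_apply,
      Polynomial.coe_evalRingHom, Polynomial.eval_finsetSum, Polynomial.eval_mul,
      Polynomial.eval_C, Polynomial.eval_pow, Polynomial.eval_X, map_sum, map_smul,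
      Finset.sum_apply, Pi.smul_apply, smul_eq_mul]
    exact Finset.sum_congr rfl fun k _ => mul_comm _ _
  have hA0 : A.det.eval 0 = 1 := by
    rw [hA]
    have : (Matrix.of fun i j => g (∑ k ∈ Finset.range (D + 1), (0 : K) ^ k • v j k) i) = 1 := by
      ext i j
      have h1 : ∑ k ∈ Finset.range (D + 1), (0 : K) ^ k • v j k = v j 0 := by
        rw [Finset.sum_range_succ']
        simp
      rw [Matrix.of_apply, h1, hg, Matrix.one_apply, Pi.single_apply]
    rw [this, Matrix.det_one]
  have hne : A.det * X ≠ 0 := by
    refine mul_ne_zero ?_ X_ne_zero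
    intro h
    rw [h, eval_zero] at hA0
    exact zero_ne_one hA0
  obtain ⟨t, ht⟩ : ∃ t : K, (A.det * X).eval t ≠ 0 := by
    by_contra hcon
    push Not at hcon
    exact hne (Polynomial.funext fun t => by rw [hcon t, eval_zero])
  rw [eval_mul, eval_X] at ht
  refine ⟨t, right_ne_zero_of_mul ht, ?_⟩
  refine li_of_det_ne_zero _ g ?_
  rw [← hA]
  exact left_ne_zero_of_mul ht

/-- Inversion of a binomial matrix: for `q + 1` distinct natural numbers `f a ≤ B`, where all
positive integers up to `B` are invertible in `K`, there are coefficients `c a` with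
`∑ c a * (f a).choose j = δ_{j q}` for all `j ≤ q`. -/
theorem exists_choose_inverse (B q : ℕ) (hB : ∀ k : ℕ, 0 < k → k ≤ B → (k : K) ≠ 0)
    (f : Fin (q + 1) → ℕ) (hf : Function.Injective f) (hfB : ∀ a, f a ≤ B) :
    ∃ c : Fin (q + 1) → K, ∀ j, j ≤ q →
      ∑ a, c a * ((f a).choose j : K) = if j = q then 1 else 0 := by
  classical
  have hqB : q ≤ B := by
    have h1 : Fintype.card (Fin (q + 1)) ≤ Fintype.card (Fin (B + 1)) :=
      Fintype.card_le_of_injective (fun a => (⟨f a, Nat.lt_succ_of_le (hfB a)⟩ : Fin (B + 1)))
        (fun a b hab => hf (by simpa using hab))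
    simpa using h1
  have hcast : Function.Injective (fun a => (f a : K)) := by
    intro a b hab
    by_contra hne
    have hne' : f a ≠ f b := fun h => hne (hf h)
    rcases Nat.lt_or_gt_of_ne hne' with h | h
    · refine hB (f b - f a) (by omega) (by have := hfB b; omega) ?_
      have hab' : (f a : K) = (f b : K) := hab
      rw [Nat.cast_sub h.le, hab', sub_self]
    · refine hB (f a - f b) (by omega) (by have := hfB a; omega) ?_
      have hab' : (f a : K) = (f b : K) := hab
      rw [Nat.cast_sub h.le, hab', sub_self]
  let M : Matrix (Fin (q + 1)) (Fin (q + 1)) K := Matrix.of fun a j => ((f a).choose j : K)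
  have hM : M.det ≠ 0 := by
    have h1 := Matrix.det_eval_matrixOfPolynomials_eq_det_vandermonde (fun a => (f a : K))
      (fun j : Fin (q + 1) => descPochhammer K j) (fun j => descPochhammer_natDegree K j)
      (fun j => monic_descPochhammer K j)
    have h2 : (Matrix.vandermonde fun a => (f a : K)).det ≠ 0 :=
      Matrix.det_vandermonde_ne_zero_iff.2 hcast
    rw [h1] at h2
    have h3 : (Matrix.of fun (a j : Fin (q + 1)) => (descPochhammer K j).eval (f a : K)) =
        M * Matrix.diagonal (fun j : Fin (q + 1) => ((j : ℕ).factorial : K)) := by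
      ext a j
      rw [Matrix.mul_diagonal]
      change (descPochhammer K j).eval (f a : K) = ((f a).choose j : K) * ((j : ℕ).factorial : K)
      rw [descPochhammer_eval_eq_descFactorial, Nat.descFactorial_eq_factorial_mul_choose]
      push_cast
      ring
    rw [h3, Matrix.det_mul] at h2
    exact left_ne_zero_of_mul h2
  have hu : IsUnit M.det := isUnit_iff_ne_zero.2 hM
  refine ⟨fun a => M⁻¹ (Fin.last q) a, fun j hj => ?_⟩
  have h1 : (M⁻¹ * M) (Fin.last q) ⟨j, Nat.lt_succ_of_le hj⟩ =
      ∑ a, M⁻¹ (Fin.last q) a * ((f a).choose j : K) := by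
    rw [Matrix.mul_apply]
    rfl
  rw [← h1, Matrix.nonsing_inv_mul _ hu, Matrix.one_apply]
  congr 1
  rw [Fin.ext_iff, Fin.val_last]
  exact propext eq_comm

end Pool.Agent.H932R2
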