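import Mathlib
import Pool.Agent.H15.G.R_seed8.H932R2.Semi

set_option autoImplicit false

/-!
# Ranks of monomial spaces modulo powers of `(y - γ(x), g(x))` and compressions
-/

namespace Pool.Agent.H932R2

open Polynomial

variable {K : Type*} [Field K]

/-- The monomial `x ^ i * y ^ l` for `p = (i, l)`, in `K[x][y]`. -/
noncomputable def mon (K : Type*) [Field K] (p : ℕ × ℕ) : K[X][X] := C (X ^ p.1) * X ^ p.2

/-- The monic polynomial with the given roots. -/
noncomputable def rootPoly {r : ℕ} (x : Fin r → K) : K[X] := ∏ i, (X - C (x i))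

/-- The ideal `(y - γ(x), g(x)) ^ m` with `g` the monic polynomial with roots `x i`. -/
noncomputable def cIdeal {r : ℕ} (x : Fin r → K) (γ : K[X]) (m : ℕ) : Ideal K[X][X] :=
  (Ideal.span {X - C γ, C (rootPoly x)}) ^ m

/-- Span of a set of monomials. -/
noncomputable def mspan (K : Type*) [Field K] (M : Set (ℕ × ℕ)) : Submodule K K[X][X] :=
  Submodule.span K (mon K '' M)

theorem mspan_mono {M M' : Set (ℕ × ℕ)} (h : M ⊆ M') : mspan K M ≤ mspan K M' :=
  Submodule.span_mono (Set.image_mono h)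

/-- A family closed under invertible affine substitutions of the coordinate. -/
def AffInv {r : ℕ} (𝒞 : Set (Fin r → K)) : Prop :=
  ∀ x ∈ 𝒞, ∀ t : K, t ≠ 0 → ∀ c : K, (fun i => c + t * x i) ∈ 𝒞

/-- For some `x ∈ 𝒞` and some `γ`, the span of the monomials in `M` has at least `n` elements
linearly independent modulo `(y - γ, g_x) ^ m`. -/
def Rk {r : ℕ} (𝒞 : Set (Fin r → K)) (m : ℕ) (M : Set (ℕ × ℕ)) (n : ℕ) : Prop :=
  ∃ x ∈ 𝒞, ∃ γ : K[X], ∃ v : Fin n → K[X][X], (∀ i, v i ∈ mspan K M) ∧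
    ∀ c : Fin n → K, ∑ i, c i • v i ∈ cIdeal x γ m → ∀ i, c i = 0

theorem li_mk_iff {R : Type*} [CommRing R] [Algebra K R] {n : ℕ} (I : Ideal R) (v : Fin n → R) :
    LinearIndependent K (fun i => Ideal.Quotient.mkₐ K I (v i)) ↔
      ∀ c : Fin n → K, ∑ i, c i • v i ∈ I → ∀ i, c i = 0 := by
  rw [Fintype.linearIndependent_iff]
  refine forall_congr' fun c => ?_
  have : ∑ i, c i • (Ideal.Quotient.mkₐ K I) (v i) = Ideal.Quotient.mkₐ K I (∑ i, c i • v i) := by
    rw [map_sum]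
    exact Finset.sum_congr rfl fun i _ => (map_smul _ _ _).symm
  rw [this, Ideal.Quotient.mkₐ_eq_mk, Ideal.Quotient.eq_zero_iff_mem]

theorem Rk.mono {r : ℕ} {𝒞 : Set (Fin r → K)} {m : ℕ} {M M' : Set (ℕ × ℕ)} {n : ℕ}
    (h : M ⊆ M') (hR : Rk 𝒞 m M n) : Rk 𝒞 m M' n := by
  obtain ⟨x, hx, γ, v, hv, hli⟩ := hR
  exact ⟨x, hx, γ, v, fun i => mspan_mono h (hv i), hli⟩

/-- Transfer of ranks along a one-parameter family of substitutions. -/
theorem Rk.transfer [Infinite K] {r : ℕ} {𝒞 : Set (Fin r → K)} {m : ℕ} {M M' : Set (ℕ × ℕ)}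
    {n : ℕ} (B : ℕ) (ψ : K → K[X][X] →ₐ[K] K[X][X])
    (hI : ∀ t : K, t ≠ 0 → ∀ x' ∈ 𝒞, ∀ γ' : K[X], ∃ x ∈ 𝒞, ∃ γ : K[X],
      cIdeal x γ m ≤ (cIdeal x' γ' m).comap (ψ t))
    (hM : ∀ p ∈ M', ∃ w : ℕ → K[X][X], w 0 = mon K p ∧
      ∀ t : K, t ≠ 0 → ∑ k ∈ Finset.range (B + 1), t ^ k • w k ∈
        (mspan K M).map (ψ t).toLinearMap)
    (hR : Rk 𝒞 m M' n) : Rk 𝒞 m M n := by
  classical
  obtain ⟨x', hx', γ', v, hv, hli⟩ := hR
  have hgood : ∀ f ∈ mspan K M', ∃ w : ℕ → K[X][X], w 0 = f ∧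
      ∀ t : K, t ≠ 0 → ∑ k ∈ Finset.range (B + 1), t ^ k • w k ∈
        (mspan K M).map (ψ t).toLinearMap := by
    intro f hf
    refine Submodule.span_induction ?_ ?_ ?_ ?_ hf
    · rintro _ ⟨p, hp, rfl⟩
      exact hM p hp
    · exact ⟨fun _ => 0, rfl, fun t _ => by simp⟩
    · rintro a b _ _ ⟨wa, ha0, ha⟩ ⟨wb, hb0, hb⟩
      refine ⟨fun k => wa k + wb k, by simp only [ha0, hb0], fun t ht => ?_⟩
      have := Submodule.add_mem _ (ha t ht) (hb t ht)
      rw [← Finset.sum_add_distrib] at this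
      simpa only [smul_add] using this
    · rintro c a _ ⟨wa, ha0, ha⟩
      refine ⟨fun k => c • wa k, by simp only [ha0], fun t ht => ?_⟩
      have := Submodule.smul_mem _ c (ha t ht)
      rw [Finset.smul_sum] at this
      simpa only [smul_comm c] using this
  choose w hw0 hw using fun i => hgood (v i) (hv i)
  obtain ⟨W, hW⟩ : ∃ W : Fin n → ℕ → K[X][X] ⧸ cIdeal x' γ' m,
      ∀ i k, W i k = Ideal.Quotient.mkₐ K (cIdeal x' γ' m) (w i k) := ⟨_, fun _ _ => rfl⟩
  have h0 : LinearIndependent K (fun j => W j 0) := by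
    simp only [hW, hw0]
    exact (li_mk_iff _ _).2 hli
  obtain ⟨t, ht, hli'⟩ := exists_ne_zero_li B W h0
  have hli'' : ∀ c : Fin n → K, ∑ i, c i • (∑ k ∈ Finset.range (B + 1), t ^ k • w i k) ∈
      cIdeal x' γ' m → ∀ i, c i = 0 := by
    intro c hc
    refine Fintype.linearIndependent_iff.1 hli' c ?_
    have h1 : Ideal.Quotient.mkₐ K (cIdeal x' γ' m)
        (∑ i, c i • (∑ k ∈ Finset.range (B + 1), t ^ k • w i k)) = 0 := by
      rw [Ideal.Quotient.mkₐ_eq_mk, Ideal.Quotient.eq_zero_iff_mem]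
      exact hc
    rw [← h1, map_sum]
    refine Finset.sum_congr rfl fun i _ => ?_
    rw [map_smul, map_sum]
    congr 1
    exact Finset.sum_congr rfl fun k _ => by rw [hW, map_smul]
  choose u hu hu' using fun i => Submodule.mem_map.1 (hw i t ht)
  obtain ⟨x, hx, γ, hle⟩ := hI t ht x' hx' γ'
  refine ⟨x, hx, γ, u, hu, fun c hc => hli'' c ?_⟩
  have h1 := hle hc
  rw [Ideal.mem_comap, map_sum] at h1
  convert h1 using 2 with i
  rw [map_smul, ← hu' i]
  rfl

/-- The substitution `y ↦ x ^ ρ + t y`. -/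
noncomputable def subY (ρ : ℕ) (t : K) : K[X][X] →ₐ[K] K[X][X] :=
  (Polynomial.aeval (R := K[X]) (C (X ^ ρ) + C (C t) * X : K[X][X])).restrictScalars K

theorem subY_C (ρ : ℕ) (t : K) (a : K[X]) : subY ρ t (C a) = C a := by
  simp [subY]

theorem subY_X (ρ : ℕ) (t : K) : subY ρ t (X : K[X][X]) = C (X ^ ρ) + C (C t) * X := by
  simp [subY]

/-- The substitution `x ↦ 1 + t x`. -/
noncomputable def subX (t : K) : K[X][X] →ₐ[K] K[X][X] :=
  Polynomial.mapAlgHom (Polynomial.aeval (1 + C t * X : K[X]))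

theorem subX_C (t : K) (a : K[X]) : subX t (C a) = C (a.comp (1 + C t * X)) := by
  simp [subX, Polynomial.aeval_def, Polynomial.comp, Polynomial.algebraMap_eq]

theorem subX_X (t : K) : subX t (X : K[X][X]) = X := by
  simp [subX]

theorem cIdeal_subY {r : ℕ} (x : Fin r → K) (γ' : K[X]) (m ρ : ℕ) (t : K) :
    cIdeal x (X ^ ρ + C t * γ') m ≤ (cIdeal x γ' m).comap (subY ρ t) := by
  unfold cIdeal
  rw [← Ideal.map_le_iff_le_comap, Ideal.map_pow]
  refine Ideal.pow_right_mono ?_ m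
  rw [Ideal.map_span, Ideal.span_le]
  rintro _ ⟨f, hf, rfl⟩
  rcases hf with rfl | hf
  · have : subY ρ t (X - C (X ^ ρ + C t * γ') : K[X][X]) = C (C t) * (X - C γ') := by
      rw [map_sub, subY_C, subY_X]
      simp only [map_add, map_mul]
      ring
    change subY ρ t (X - C (X ^ ρ + C t * γ') : K[X][X]) ∈ _
    rw [this]
    exact Ideal.mul_mem_left _ _ (Ideal.subset_span (Or.inl rfl))
  · rw [Set.mem_singleton_iff] at hf
    subst hf
    rw [subY_C]
    exact Ideal.subset_span (Or.inr rfl)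

theorem rootPoly_comp {r : ℕ} (x : Fin r → K) (t : K) :
    (rootPoly (fun i => 1 + t * x i)).comp (1 + C t * X) = C (t ^ r) * rootPoly x := by
  unfold rootPoly
  rw [Polynomial.prod_comp]
  have : ∀ i, ((X - C (1 + t * x i)).comp (1 + C t * X) : K[X]) = C t * (X - C (x i)) := by
    intro i
    rw [sub_comp, X_comp, C_comp]
    simp only [map_add, map_mul, map_one]
    ring
  simp only [this, Finset.prod_mul_distrib, Finset.prod_const, Finset.card_univ, Fintype.card_fin,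
    map_pow]

theorem cIdeal_subX {r : ℕ} (x : Fin r → K) (γ' : K[X]) (m : ℕ) (t : K) (ht : t ≠ 0) :
    cIdeal (fun i => 1 + t * x i) (γ'.comp (C t⁻¹ * (X - 1))) m ≤
      (cIdeal x γ' m).comap (subX t) := by
  unfold cIdeal
  rw [← Ideal.map_le_iff_le_comap, Ideal.map_pow]
  refine Ideal.pow_right_mono ?_ m
  rw [Ideal.map_span, Ideal.span_le]
  rintro _ ⟨f, hf, rfl⟩
  rcases hf with rfl | hf
  · have : subX t (X - C (γ'.comp (C t⁻¹ * (X - 1))) : K[X][X]) = X - C γ' := by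
      rw [map_sub, subX_C, subX_X, comp_assoc]
      congr 2
      have : (C t⁻¹ * (X - 1) : K[X]).comp (1 + C t * X) = X := by
        simp only [mul_comp, C_comp, sub_comp, X_comp, one_comp, add_sub_cancel_left]
        rw [← mul_assoc, ← C_mul, inv_mul_cancel₀ ht, C_1, one_mul]
      rw [this, comp_X]
    change subX t (X - C (γ'.comp (C t⁻¹ * (X - 1))) : K[X][X]) ∈ _
    rw [this]
    exact Ideal.subset_span (Or.inl rfl)
  · rw [Set.mem_singleton_iff] at hf
    subst hf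
    rw [subX_C, rootPoly_comp, C_mul]
    exact Ideal.mul_mem_left _ _ (Ideal.subset_span (Or.inr rfl))

theorem subY_mon (ρ : ℕ) (t : K) (n l : ℕ) (h : ρ * l ≤ n) (B : ℕ) (hB : l ≤ B) :
    subY ρ t (mon K (n - ρ * l, l)) =
      ∑ j ∈ Finset.range (B + 1), (t ^ j * (l.choose j : K)) • mon K (n - ρ * j, j) := by
  have h1 : subY ρ t (mon K (n - ρ * l, l)) =
      ∑ j ∈ Finset.range (l + 1), (t ^ j * (l.choose j : K)) • mon K (n - ρ * j, j) := by
    rw [mon, map_mul, map_pow (subY ρ t), subY_C, subY_X, add_comm, add_pow, Finset.mul_sum]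
    refine Finset.sum_congr rfl fun j hj => ?_
    have hj' : j ≤ l := Nat.lt_succ_iff.1 (Finset.mem_range.1 hj)
    have e : n - ρ * j = (n - ρ * l) + ρ * (l - j) := by
      have h2 : ρ * j ≤ ρ * l := Nat.mul_le_mul_left _ hj'
      rw [Nat.mul_sub]
      omega
    rw [mon, e]
    simp only [Algebra.smul_def, Polynomial.algebraMap_apply, Algebra.algebraMap_self,
      RingHom.id_apply, pow_add, pow_mul, mul_pow, map_mul, map_pow, map_natCast]
    ring
  rw [h1]
  refine Finset.sum_subset (fun j hj => ?_) fun j _ hj => ?_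
  · rw [Finset.mem_range] at hj ⊢
    omega
  · rw [Finset.mem_range, not_lt] at hj
    rw [Nat.choose_eq_zero_of_lt (by omega), Nat.cast_zero, mul_zero, zero_smul]

theorem subX_mon (t : K) (n l : ℕ) (B : ℕ) (hB : n ≤ B) :
    subX t (mon K (n, l)) =
      ∑ j ∈ Finset.range (B + 1), (t ^ j * (n.choose j : K)) • mon K (j, l) := by
  have h1 : subX t (mon K (n, l)) =
      ∑ j ∈ Finset.range (n + 1), (t ^ j * (n.choose j : K)) • mon K (j, l) := by
    rw [mon, map_mul, map_pow (subX t), subX_C, subX_X, pow_comp, X_comp, add_comm, add_pow,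
      map_sum, Finset.sum_mul]
    refine Finset.sum_congr rfl fun j hj => ?_
    rw [mon]
    simp only [Algebra.smul_def, Polynomial.algebraMap_apply, Algebra.algebraMap_self,
      RingHom.id_apply, mul_pow, map_mul, map_pow, map_natCast, one_pow, mul_one]
    ring
  rw [h1]
  refine Finset.sum_subset (fun j hj => ?_) fun j _ hj => ?_
  · rw [Finset.mem_range] at hj ⊢
    omega
  · rw [Finset.mem_range, not_lt] at hj
    rw [Nat.choose_eq_zero_of_lt (by omega), Nat.cast_zero, mul_zero, zero_smul]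

end Pool.Agent.H932R2
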