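import Mathlib
import Pool.Agent.H15.G.R_seed8.H932R2.Rank

set_option autoImplicit false

/-!
# Compressions of sets of monomials
-/

namespace Pool.Agent.H932R2

open Polynomial

variable {K : Type*} [Field K]

/-- Every element `(i, q)` of `M'` has at least `q + 1` elements of `M` (in rows at most `B`) on
its line `i + ρ q = const`. -/
def DomY (ρ B : ℕ) (M M' : Set (ℕ × ℕ)) : Prop :=
  ∀ p ∈ M', ∃ f : Fin (p.2 + 1) → ℕ, Function.Injective f ∧
    ∀ a, f a ≤ B ∧ ρ * f a ≤ p.1 + ρ * p.2 ∧ (p.1 + ρ * p.2 - ρ * f a, f a) ∈ M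

/-- Every element `(i, q)` of `M'` has at least `i + 1` elements of `M` (in columns at most `B`)
on its row. -/
def DomX (B : ℕ) (M M' : Set (ℕ × ℕ)) : Prop :=
  ∀ p ∈ M', ∃ f : Fin (p.1 + 1) → ℕ, Function.Injective f ∧
    ∀ a, f a ≤ B ∧ (f a, p.2) ∈ M

theorem Rk.compressY [Infinite K] {r : ℕ} {𝒞 : Set (Fin r → K)} {m : ℕ} {M M' : Set (ℕ × ℕ)}
    {n : ℕ} (ρ B : ℕ) (hK : ∀ k : ℕ, 0 < k → k ≤ B → (k : K) ≠ 0) (h : DomY ρ B M M')
    (hR : Rk 𝒞 m M' n) : Rk 𝒞 m M n := by
  classical
  refine Rk.transfer B (subY ρ) (fun t ht x' hx' γ' => ⟨x', hx', _, cIdeal_subY x' γ' m ρ t⟩)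
    (fun p hp => ?_) hR
  obtain ⟨i, q⟩ := p
  obtain ⟨f, hf, hfM⟩ := h _ hp
  simp only at hfM f
  obtain ⟨c, hc⟩ := exists_choose_inverse B q hK f hf (fun a => (hfM a).1)
  refine ⟨fun k => (∑ a, c a * ((f a).choose (q + k) : K)) •
    mon K (i + ρ * q - ρ * (q + k), q + k), ?_, fun t ht => ?_⟩
  · simp only [add_zero]
    rw [hc q le_rfl]
    simp
  · have key : subY ρ t (∑ a, c a • mon K (i + ρ * q - ρ * f a, f a)) =
        t ^ q • ∑ k ∈ Finset.range (B + 1), t ^ k •
          ((∑ a, c a * ((f a).choose (q + k) : K)) •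
            mon K (i + ρ * q - ρ * (q + k), q + k)) := by
      rw [map_sum]
      have h1 : ∀ a, subY ρ t (c a • mon K (i + ρ * q - ρ * f a, f a)) =
          ∑ j ∈ Finset.range (q + (B + 1)), (t ^ j * (c a * ((f a).choose j : K))) •
            mon K (i + ρ * q - ρ * j, j) := by
        intro a
        rw [map_smul, subY_mon ρ t _ _ (hfM a).2.1 (q + B) (by have := (hfM a).1; omega),
          Finset.smul_sum]
        refine Finset.sum_congr rfl fun j _ => ?_
        rw [smul_smul]
        congr 1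
        ring
      simp only [h1]
      rw [Finset.sum_comm, Finset.sum_range_add]
      have h2 : ∑ j ∈ Finset.range q, ∑ a, (t ^ j * (c a * ((f a).choose j : K))) •
            mon K (i + ρ * q - ρ * j, j) = 0 := by
        refine Finset.sum_eq_zero fun j hj => ?_
        rw [Finset.mem_range] at hj
        rw [← Finset.sum_smul, ← Finset.mul_sum, hc j hj.le, if_neg (by omega), mul_zero,
          zero_smul]
      rw [h2, zero_add, Finset.smul_sum]
      refine Finset.sum_congr rfl fun k _ => ?_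
      rw [← Finset.sum_smul, ← Finset.mul_sum, smul_smul, smul_smul]
      congr 1
      ring
    have key' : ∑ k ∈ Finset.range (B + 1), t ^ k •
          ((∑ a, c a * ((f a).choose (q + k) : K)) •
            mon K (i + ρ * q - ρ * (q + k), q + k)) =
        (t ^ q)⁻¹ • subY ρ t (∑ a, c a • mon K (i + ρ * q - ρ * f a, f a)) := by
      rw [key, smul_smul, inv_mul_cancel₀ (pow_ne_zero _ ht), one_smul]
    rw [key', ← map_smul]
    refine Submodule.mem_map_of_mem (Submodule.smul_mem _ _ (Submodule.sum_mem _ fun a _ =>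
      Submodule.smul_mem _ _ (Submodule.subset_span ⟨_, (hfM a).2.2, rfl⟩)))

theorem Rk.compressX [Infinite K] {r : ℕ} {𝒞 : Set (Fin r → K)} (h𝒞 : AffInv 𝒞) {m : ℕ}
    {M M' : Set (ℕ × ℕ)} {n : ℕ} (B : ℕ) (hK : ∀ k : ℕ, 0 < k → k ≤ B → (k : K) ≠ 0)
    (h : DomX B M M') (hR : Rk 𝒞 m M' n) : Rk 𝒞 m M n := by
  classical
  refine Rk.transfer B subX
    (fun t ht x' hx' γ' => ⟨_, h𝒞 x' hx' t ht 1, _, cIdeal_subX x' γ' m t ht⟩)
    (fun p hp => ?_) hR
  obtain ⟨i, q⟩ := p
  obtain ⟨f, hf, hfM⟩ := h _ hp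
  simp only at hfM f
  obtain ⟨c, hc⟩ := exists_choose_inverse B i hK f hf (fun a => (hfM a).1)
  refine ⟨fun k => (∑ a, c a * ((f a).choose (i + k) : K)) • mon K (i + k, q), ?_,
    fun t ht => ?_⟩
  · simp only [add_zero]
    rw [hc i le_rfl]
    simp
  · have key : subX t (∑ a, c a • mon K (f a, q)) =
        t ^ i • ∑ k ∈ Finset.range (B + 1), t ^ k •
          ((∑ a, c a * ((f a).choose (i + k) : K)) • mon K (i + k, q)) := by
      rw [map_sum]
      have h1 : ∀ a, subX t (c a • mon K (f a, q)) =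
          ∑ j ∈ Finset.range (i + (B + 1)), (t ^ j * (c a * ((f a).choose j : K))) •
            mon K (j, q) := by
        intro a
        rw [map_smul, subX_mon t _ _ (i + B) (by have := (hfM a).1; omega),
          Finset.smul_sum]
        refine Finset.sum_congr rfl fun j _ => ?_
        rw [smul_smul]
        congr 1
        ring
      simp only [h1]
      rw [Finset.sum_comm, Finset.sum_range_add]
      have h2 : ∑ j ∈ Finset.range i, ∑ a, (t ^ j * (c a * ((f a).choose j : K))) •
            mon K (j, q) = 0 := by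
        refine Finset.sum_eq_zero fun j hj => ?_
        rw [Finset.mem_range] at hj
        rw [← Finset.sum_smul, ← Finset.mul_sum, hc j hj.le, if_neg (by omega), mul_zero,
          zero_smul]
      rw [h2, zero_add, Finset.smul_sum]
      refine Finset.sum_congr rfl fun k _ => ?_
      rw [← Finset.sum_smul, ← Finset.mul_sum, smul_smul, smul_smul]
      congr 1
      ring
    have key' : ∑ k ∈ Finset.range (B + 1), t ^ k •
          ((∑ a, c a * ((f a).choose (i + k) : K)) • mon K (i + k, q)) =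
        (t ^ i)⁻¹ • subX t (∑ a, c a • mon K (f a, q)) := by
      rw [key, smul_smul, inv_mul_cancel₀ (pow_ne_zero _ ht), one_smul]
    rw [key', ← map_smul]
    refine Submodule.mem_map_of_mem (Submodule.smul_mem _ _ (Submodule.sum_mem _ fun a _ =>
      Submodule.smul_mem _ _ (Submodule.subset_span ⟨_, (hfM a).2, rfl⟩)))

end Pool.Agent.H932R2
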