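import Mathlib
import Pool.Agent.H15.G.R_seed8.H932R2.Compress

set_option autoImplicit false

/-!
# The base case: monomials below the staircase of `(y, g(x)) ^ m`
-/

namespace Pool.Agent.H932R2

open Polynomial

variable {K : Type*} [Field K]

/-- The polynomials whose coefficient of `y ^ l` is divisible by `g ^ (m - l)` for `l < m`. -/
noncomputable def divIdeal (g : K[X]) (m : ℕ) : Ideal K[X][X] where
  carrier := {f | ∀ l < m, g ^ (m - l) ∣ f.coeff l}
  zero_mem' := by
    intro l _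
    simp
  add_mem' := by
    intro a b ha hb l hl
    rw [coeff_add]
    exact dvd_add (ha l hl) (hb l hl)
  smul_mem' := by
    intro c a ha l hl
    rw [smul_eq_mul, coeff_mul]
    refine Finset.dvd_sum fun p hp => ?_
    have hp := Finset.HasAntidiagonal.mem_antidiagonal.1 hp
    refine Dvd.dvd.mul_left ?_ _
    exact (pow_dvd_pow g (by omega)).trans (ha p.2 (by omega))

theorem mem_divIdeal {g : K[X]} {m : ℕ} {f : K[X][X]} :
    f ∈ divIdeal g m ↔ ∀ l < m, g ^ (m - l) ∣ f.coeff l := Iff.rfl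

theorem span_pow_le_divIdeal (g : K[X]) (m : ℕ) :
    (Ideal.span {X, C g} : Ideal K[X][X]) ^ m ≤ divIdeal g m := by
  induction m with
  | zero =>
    intro f _ l hl
    omega
  | succ m ih =>
    rw [Ideal.IsTwoSided.pow_succ, Ideal.mul_le]
    intro a ha b hb
    obtain ⟨u, v, rfl⟩ := Ideal.mem_span_pair.1 ha
    have hb' := ih hb
    have h1 : X * b ∈ divIdeal g (m + 1) := by
      intro l hl
      rcases l with _ | l
      · simp
      · rw [coeff_X_mul]
        have := hb' l (by omega)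
        rwa [show m + 1 - (l + 1) = m - l by omega]
    have h2 : C g * b ∈ divIdeal g (m + 1) := by
      intro l hl
      rw [coeff_C_mul]
      rcases Nat.lt_or_ge l m with h | h
      · rw [show m + 1 - l = (m - l) + 1 by omega, pow_succ']
        exact mul_dvd_mul_left _ (hb' l h)
      · rw [show m + 1 - l = 1 by omega, pow_one]
        exact dvd_mul_right _ _
    have : (u * X + v * C g) * b = u * (X * b) + v * (C g * b) := by ring
    rw [this]
    exact Ideal.add_mem _ (Ideal.mul_mem_left _ _ h1) (Ideal.mul_mem_left _ _ h2)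

theorem divIdeal_le_span_pow (g : K[X]) (m : ℕ) :
    divIdeal g m ≤ (Ideal.span {X, C g} : Ideal K[X][X]) ^ m := by
  intro f hf
  rw [← Polynomial.sum_monomial_eq f, Polynomial.sum_def]
  refine Ideal.sum_mem _ fun l _ => ?_
  rw [← C_mul_X_pow_eq_monomial]
  have hX : (X : K[X][X]) ∈ (Ideal.span {X, C g} : Ideal K[X][X]) :=
    Ideal.subset_span (Or.inl rfl)
  have hg : (C g : K[X][X]) ∈ (Ideal.span {X, C g} : Ideal K[X][X]) :=
    Ideal.subset_span (Or.inr rfl)
  rcases Nat.lt_or_ge l m with h | h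
  · obtain ⟨u, hu⟩ := hf l h
    rw [hu, C_mul, C_pow]
    have h1 : (C g ^ (m - l) * X ^ l : K[X][X]) ∈
        (Ideal.span {X, C g} : Ideal K[X][X]) ^ m := by
      have h2 := Ideal.mul_mem_mul (Ideal.pow_mem_pow hg (m - l)) (Ideal.pow_mem_pow hX l)
      rwa [← Ideal.IsTwoSided.pow_add, Nat.sub_add_cancel h.le] at h2
    have h3 := Ideal.mul_mem_left _ (C u) h1
    convert h3 using 1
    ring
  · refine Ideal.mul_mem_left _ _ ?_
    exact Ideal.pow_le_pow_right h (Ideal.pow_mem_pow hX l)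

theorem mem_span_pow_iff {g : K[X]} {m : ℕ} {f : K[X][X]} :
    f ∈ (Ideal.span {X, C g} : Ideal K[X][X]) ^ m ↔ ∀ l < m, g ^ (m - l) ∣ f.coeff l :=
  ⟨fun h => span_pow_le_divIdeal g m h, fun h => divIdeal_le_span_pow g m h⟩

theorem cIdeal_zero {r : ℕ} (x : Fin r → K) (m : ℕ) :
    cIdeal x 0 m = (Ideal.span {X, C (rootPoly x)} : Ideal K[X][X]) ^ m := by
  unfold cIdeal
  rw [C_0, sub_zero]

theorem rootPoly_monic {r : ℕ} (x : Fin r → K) : (rootPoly x).Monic :=
  monic_prod_of_monic _ _ fun _ _ => monic_X_sub_C _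

theorem rootPoly_natDegree {r : ℕ} (x : Fin r → K) : (rootPoly x).natDegree = r := by
  unfold rootPoly
  rw [natDegree_prod_of_monic _ _ fun _ _ => monic_X_sub_C _]
  simp

theorem coeff_mon (p : ℕ × ℕ) (i l : ℕ) :
    ((mon K p).coeff l).coeff i = if p = (i, l) then 1 else 0 := by
  rw [mon, coeff_C_mul, coeff_X_pow]
  rcases p with ⟨a, b⟩
  by_cases hl : l = b
  · subst hl
    simp only [if_true, mul_one, coeff_X_pow, Prod.mk.injEq, and_true]
    simp only [eq_comm]
  · simp only [hl, if_false, mul_zero, coeff_zero, Prod.mk.injEq]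
    rw [if_neg]
    rintro ⟨_, rfl⟩
    exact hl rfl

/-- Enumeration of a finite set of monomials. -/
noncomputable def enumM (M : Finset (ℕ × ℕ)) : Fin M.card → ℕ × ℕ :=
  fun i => (M.equivFin.symm i : ℕ × ℕ)

theorem enumM_mem (M : Finset (ℕ × ℕ)) (i : Fin M.card) : enumM M i ∈ M :=
  (M.equivFin.symm i).2

theorem enumM_inj (M : Finset (ℕ × ℕ)) : Function.Injective (enumM M) :=
  Subtype.val_injective.comp M.equivFin.symm.injective

theorem enumM_surj (M : Finset (ℕ × ℕ)) {p : ℕ × ℕ} (hp : p ∈ M) : ∃ i, enumM M i = p :=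
  ⟨M.equivFin ⟨p, hp⟩, by simp [enumM]⟩

theorem Rk.base {r : ℕ} {𝒞 : Set (Fin r → K)} {x : Fin r → K} (hx : x ∈ 𝒞) (m : ℕ)
    (M : Finset (ℕ × ℕ)) (hM : ∀ p ∈ M, p.2 < m ∧ p.1 < r * (m - p.2)) :
    Rk 𝒞 m (↑M : Set (ℕ × ℕ)) M.card := by
  classical
  refine ⟨x, hx, 0, fun i => mon K (enumM M i),
    fun i => Submodule.subset_span ⟨_, enumM_mem M i, rfl⟩, fun c hc => ?_⟩
  rw [cIdeal_zero, mem_span_pow_iff] at hc
  intro i
  set p := enumM M i with hp
  obtain ⟨h1, h2⟩ := hM p (enumM_mem M i)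
  have h3 := hc p.2 h1
  have hdeg : ((∑ i, c i • mon K (enumM M i)).coeff p.2).degree <
      ((rootPoly x) ^ (m - p.2)).degree := by
    rw [degree_pow, degree_eq_natDegree (rootPoly_monic x).ne_zero, rootPoly_natDegree]
    have : ((m - p.2) • (r : WithBot ℕ)) = ((r * (m - p.2) : ℕ) : WithBot ℕ) := by
      rw [nsmul_eq_mul, mul_comm]
      norm_cast
    rw [this, degree_lt_iff_coeff_zero]
    intro a ha
    rw [finsetSum_coeff, finsetSum_coeff]
    refine Finset.sum_eq_zero fun j _ => ?_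
    rw [coeff_smul, coeff_smul, coeff_mon, if_neg, smul_zero]
    intro h
    have := (hM _ (enumM_mem M j)).2
    rw [h] at this
    simp only at this
    omega
  have h4 := eq_zero_of_dvd_of_degree_lt h3 hdeg
  have h5 := congrArg (fun q => q.coeff p.1) h4
  simp only [coeff_zero] at h5
  rw [finsetSum_coeff, finsetSum_coeff, Finset.sum_eq_single i] at h5
  · rw [coeff_smul, coeff_smul, coeff_mon, if_pos rfl] at h5
    simpa using h5
  · intro j _ hj
    rw [coeff_smul, coeff_smul, coeff_mon, if_neg, smul_zero]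
    intro h
    exact hj (enumM_inj M (h.trans hp))
  · intro h
    exact absurd (Finset.mem_univ i) h

theorem li_of_li_in_span {V : Type*} [AddCommGroup V] [Module K V] {n : ℕ} (u v : Fin n → V)
    (hu : LinearIndependent K u) (h : ∀ i, u i ∈ Submodule.span K (Set.range v)) :
    LinearIndependent K v := by
  rw [linearIndependent_iff_card_le_finrank_span]
  have h1 := finrank_span_eq_card hu
  rw [← h1]
  have : FiniteDimensional K (Submodule.span K (Set.range v)) :=
    FiniteDimensional.span_of_finite K (Set.finite_range v)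
  refine Submodule.finrank_mono (Submodule.span_le.2 ?_)
  rintro _ ⟨i, rfl⟩
  exact h i

theorem mspan_eq_range (M : Finset (ℕ × ℕ)) : mspan K (↑M : Set (ℕ × ℕ)) =
    Submodule.span K (Set.range fun i => mon K (enumM M i)) := by
  unfold mspan
  congr 1
  ext f
  constructor
  · rintro ⟨p, hp, rfl⟩
    obtain ⟨i, rfl⟩ := enumM_surj M hp
    exact ⟨i, rfl⟩
  · rintro ⟨i, rfl⟩
    exact ⟨_, enumM_mem M i, rfl⟩

/-- If a finite set of monomials has full rank, it is linearly independent. -/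
theorem Rk.full {r : ℕ} {𝒞 : Set (Fin r → K)} {m : ℕ} {M : Finset (ℕ × ℕ)}
    (hR : Rk 𝒞 m (↑M : Set (ℕ × ℕ)) M.card) :
    ∃ x ∈ 𝒞, ∃ γ : K[X], ∀ c : Fin M.card → K,
      ∑ i, c i • mon K (enumM M i) ∈ cIdeal x γ m → ∀ i, c i = 0 := by
  classical
  obtain ⟨x, hx, γ, v, hv, hli⟩ := hR
  refine ⟨x, hx, γ, ?_⟩
  rw [← li_mk_iff] at hli ⊢
  refine li_of_li_in_span _ _ hli fun i => ?_
  have h1 := hv i
  rw [mspan_eq_range] at h1
  have h2 := Submodule.mem_map_of_mem (f := (Ideal.Quotient.mkₐ K (cIdeal x γ m)).toLinearMap) h1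
  rw [Submodule.map_span, ← Set.range_comp] at h2
  exact h2

theorem mspan_eq_zero {M : Finset (ℕ × ℕ)} (c : Fin M.card → K)
    (h : ∑ i, c i • mon K (enumM M i) = 0) (i : Fin M.card) : c i = 0 := by
  classical
  have h5 := congrArg (fun q => (q.coeff (enumM M i).2).coeff (enumM M i).1) h
  simp only [coeff_zero] at h5
  rw [finsetSum_coeff, finsetSum_coeff, Finset.sum_eq_single i] at h5
  · rw [coeff_smul, coeff_smul, coeff_mon, if_pos rfl] at h5
    simpa using h5
  · intro j _ hj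
    rw [coeff_smul, coeff_smul, coeff_mon, if_neg, smul_zero]
    intro h
    exact hj (enumM_inj M h)
  · intro h
    exact absurd (Finset.mem_univ i) h

theorem sum_enumM {V : Type*} [AddCommMonoid V] (M : Finset (ℕ × ℕ)) (F : ℕ × ℕ → V) :
    ∑ i, F (enumM M i) = ∑ p ∈ M, F p := by
  rw [← Finset.sum_coe_sort M F]
  exact Equiv.sum_comp M.equivFin.symm (fun p : M => F p)

theorem Rk.subset {r : ℕ} {𝒞 : Set (Fin r → K)} {m : ℕ} {M M' : Finset (ℕ × ℕ)}
    (hR : Rk 𝒞 m (↑M : Set (ℕ × ℕ)) M.card) (h : M' ⊆ M) :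
    Rk 𝒞 m (↑M' : Set (ℕ × ℕ)) M'.card := by
  classical
  obtain ⟨x, hx, γ, hf⟩ := hR.full
  refine ⟨x, hx, γ, fun i => mon K (enumM M' i),
    fun i => Submodule.subset_span ⟨_, enumM_mem M' i, rfl⟩, fun c hc i => ?_⟩
  let e : ℕ × ℕ → K := fun p => ∑ j, if enumM M' j = p then c j else 0
  have he : ∀ j, e (enumM M' j) = c j := by
    intro j
    show (∑ k, if enumM M' k = enumM M' j then c k else 0) = c j
    rw [Finset.sum_eq_single j]
    · simp
    · intro k _ hk
      rw [if_neg]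
      intro h'
      exact hk (enumM_inj M' h')
    · intro h'
      exact absurd (Finset.mem_univ j) h'
  have he0 : ∀ p, p ∉ M' → e p = 0 := by
    intro p hp
    refine Finset.sum_eq_zero fun k _ => ?_
    rw [if_neg]
    rintro rfl
    exact hp (enumM_mem M' k)
  have h1 : ∑ j, e (enumM M j) • mon K (enumM M j) = ∑ j, c j • mon K (enumM M' j) := by
    rw [sum_enumM M (fun p => e p • mon K p)]
    have h2 : ∑ j, c j • mon K (enumM M' j) = ∑ j, e (enumM M' j) • mon K (enumM M' j) :=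
      Finset.sum_congr rfl fun j _ => by rw [he]
    rw [h2, sum_enumM M' (fun p => e p • mon K p)]
    refine (Finset.sum_subset h fun p _ hp => ?_).symm
    rw [he0 p hp, zero_smul]
  have h3 := hf (fun j => e (enumM M j)) (by rw [h1]; exact hc)
  obtain ⟨j, hj⟩ := enumM_surj M (h (enumM_mem M' i))
  have h4 := h3 j
  rw [hj, he] at h4
  exact h4

end Pool.Agent.H932R2
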