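import Mathlib
import Pool.Agent.H15.G.R_seed8.H932R2.Shapes

set_option autoImplicit false

/-!
# The chain of balanced shapes
-/

namespace Pool.Agent.H932R2

/-- Finite set with given row lengths. -/
def rowsF (h : ℕ) (D : ℕ → ℕ) : Finset (ℕ × ℕ) :=
  ((Finset.range h).sigma fun l => Finset.range (D l)).map
    ⟨fun p => (p.2, p.1), by
      rintro ⟨a, b⟩ ⟨c, d⟩ h
      simp only [Prod.mk.injEq] at h
      obtain ⟨rfl, rfl⟩ := h
      rfl⟩

theorem mem_rowsF {h : ℕ} {D : ℕ → ℕ} {i l : ℕ} :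
    ((i, l) : ℕ × ℕ) ∈ rowsF h D ↔ l < h ∧ i < D l := by
  unfold rowsF
  simp only [Finset.mem_map, Finset.mem_sigma, Finset.mem_range, Function.Embedding.coeFn_mk,
    Prod.mk.injEq, Sigma.exists]
  constructor
  · rintro ⟨a, b, ⟨h1, h2⟩, rfl, rfl⟩
    exact ⟨h1, h2⟩
  · rintro ⟨h1, h2⟩
    exact ⟨l, i, ⟨h1, h2⟩, rfl, rfl⟩

theorem card_rowsF (h : ℕ) (D : ℕ → ℕ) : (rowsF h D).card = ∑ l ∈ Finset.range h, D l := by
  unfold rowsF
  rw [Finset.card_map, Finset.card_sigma]
  simp only [Finset.card_range]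

/-- The balanced shape of slope `s` as a finite set. -/
def Lfin (s u t j : ℕ) : Finset (ℕ × ℕ) :=
  rowsF (u + 1) fun l => s * (u - l) + t + if l < j then 1 else 0

theorem coe_Lfin {s u t j : ℕ} (ht : t < s) (hj : j ≤ u + 1) :
    (↑(Lfin s u t j) : Set (ℕ × ℕ)) = Lset s (s * u + t) j := by
  ext ⟨i, l⟩
  rw [Finset.mem_coe, Lfin, mem_rowsF, mem_Lset]
  rcases Nat.lt_or_ge u l with h | h
  · have h1 : s * (u + 1) ≤ s * l := Nat.mul_le_mul_left _ h
    have h2 : s * (u + 1) = s * u + s := by ring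
    constructor
    · rintro ⟨h3, _⟩
      omega
    · rintro (h3 | h3) <;> omega
  · obtain ⟨w, rfl⟩ := Nat.exists_eq_add_of_le h
    rw [Nat.add_sub_cancel_left]
    have h2 : s * (l + w) = s * l + s * w := by ring
    rw [h2]
    split_ifs with h3
    · constructor
      · rintro ⟨_, h4⟩
        omega
      · intro h4
        omega
    · constructor
      · rintro ⟨_, h4⟩
        omega
      · intro h4
        omega

/-- Twice the size of a balanced shape. -/
def sz (s u t j : ℕ) : ℕ := s * u * (u + 1) + 2 * (u + 1) * t + 2 * j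

theorem card_Lfin {s u t j : ℕ} (hj : j ≤ u + 1) : 2 * (Lfin s u t j).card = sz s u t j := by
  have h1 : ∑ l ∈ Finset.range (u + 1), (u - l) = ∑ l ∈ Finset.range (u + 1), l :=
    Finset.sum_range_reflect (fun l => l) (u + 1)
  have h2 := Finset.sum_range_id_mul_two (u + 1)
  rw [Nat.add_sub_cancel] at h2
  have h3 : ∑ l ∈ Finset.range (u + 1), (if l < j then 1 else 0) = j := by
    rw [Finset.sum_boole]
    have : (Finset.range (u + 1)).filter (fun l => l < j) = Finset.range j := by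
      ext l
      simp only [Finset.mem_filter, Finset.mem_range]
      omega
    rw [this, Finset.card_range]
    rfl
  rw [Lfin, card_rowsF, Finset.sum_add_distrib, Finset.sum_add_distrib, h3, ← Finset.mul_sum, h1,
    Finset.sum_const, Finset.card_range, smul_eq_mul, sz]
  have h4 : s * ((∑ l ∈ Finset.range (u + 1), l) * 2) = s * u * (u + 1) := by
    rw [h2]
    ring
  linarith

theorem Lset_total (s V j V' j' : ℕ) : Lset s V j ⊆ Lset s V' j' ∨ Lset s V' j' ⊆ Lset s V j := by
  rcases Nat.lt_trichotomy V V' with h | h | h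
  · left
    rintro ⟨i, l⟩ hp
    rw [mem_Lset] at hp ⊢
    omega
  · rcases Nat.le_total j j' with h' | h'
    · left
      rintro ⟨i, l⟩ hp
      rw [mem_Lset] at hp ⊢
      omega
    · right
      rintro ⟨i, l⟩ hp
      rw [mem_Lset] at hp ⊢
      omega
  · right
    rintro ⟨i, l⟩ hp
    rw [mem_Lset] at hp ⊢
    omega

theorem Lfin_subset {s u t j u' t' j' : ℕ} (ht : t < s) (hj : j ≤ u + 1) (ht' : t' < s)
    (hj' : j' ≤ u' + 1) (h : sz s u t j ≤ sz s u' t' j') : Lfin s u t j ⊆ Lfin s u' t' j' := by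
  rw [← card_Lfin hj, ← card_Lfin hj'] at h
  have h0 : (Lfin s u t j).card ≤ (Lfin s u' t' j').card := by omega
  rcases Lset_total s (s * u + t) j (s * u' + t') j' with h1 | h1
  · rw [← coe_Lfin ht hj, ← coe_Lfin ht' hj'] at h1
    exact_mod_cast h1
  · rw [← coe_Lfin ht hj, ← coe_Lfin ht' hj'] at h1
    have h2 : Lfin s u' t' j' ⊆ Lfin s u t j := by exact_mod_cast h1
    rw [Finset.eq_of_subset_of_card_le h2 h0]

theorem Lfin_eq {s u t j u' t' j' : ℕ} (ht : t < s) (hj : j ≤ u + 1) (ht' : t' < s)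
    (hj' : j' ≤ u' + 1) (h : sz s u t j = sz s u' t' j') : Lfin s u t j = Lfin s u' t' j' :=
  (Lfin_subset ht hj ht' hj' h.le).antisymm (Lfin_subset ht' hj' ht hj h.ge)

theorem exists_param (s N : ℕ) (hs : 0 < s) :
    ∃ u t j, t < s ∧ j ≤ u + 1 ∧ sz s u t j = 2 * N := by
  induction N with
  | zero => exact ⟨0, 0, 0, hs, by omega, by simp [sz]⟩
  | succ N ih =>
    obtain ⟨u, t, j, ht, hj, h⟩ := ih
    rcases Nat.lt_or_ge j (u + 1) with h1 | h1
    · refine ⟨u, t, j + 1, ht, h1, ?_⟩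
      unfold sz at h ⊢
      linarith
    · have hj' : j = u + 1 := le_antisymm hj h1
      subst hj'
      rcases Nat.lt_or_ge (t + 1) s with h2 | h2
      · refine ⟨u, t + 1, 1, h2, by omega, ?_⟩
        unfold sz at h ⊢
        linarith
      · have hs' : s = t + 1 := by omega
        subst hs'
        refine ⟨u + 1, 0, 1, by omega, by omega, ?_⟩
        unfold sz at h ⊢
        linarith

/-- Validity of the parameters for the chain. -/
def Good (s u t j : ℕ) : Prop := t < s ∧ j ≤ u + 1 ∧ u ≤ s + 2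

theorem good_of_sz {s u t j : ℕ} (ht : t < s) (hj : j ≤ u + 1)
    (h : sz s u t j < s * (s + 3) * (s + 4)) : Good s u t j := by
  refine ⟨ht, hj, ?_⟩
  by_contra hu
  have h1 : s * (s + 3) * (s + 3 + 1) ≤ s * u * (u + 1) :=
    Nat.mul_le_mul (Nat.mul_le_mul_left _ (by omega)) (by omega)
  unfold sz at h
  have h2 : s * (s + 3) * (s + 3 + 1) = s * (s + 3) * (s + 4) := rfl
  omega

variable {K : Type*} [Field K] [Infinite K] {r : ℕ} {𝒞 : Set (Fin r → K)} {m n : ℕ}

theorem chain_step_aux {s u t j : ℕ} (hs : 0 < s) (hg : Good s u t j)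
    (hu : u ≤ s + 1 + t + (if 0 < j then 1 else 0)) (B : ℕ) (hB : u ≤ B)
    (hK : ∀ k : ℕ, 0 < k → k ≤ B → (k : K) ≠ 0) :
    ∃ u' t' j', Good (s + 2) u' t' j' ∧ u' ≤ u ∧ sz (s + 2) u' t' j' = sz s u t j ∧
      (Rk 𝒞 m (Lset (s + 2) ((s + 2) * u' + t') j') n → Rk 𝒞 m (Lset s (s * u + t) j) n) := by
  obtain ⟨ht, hj, hu2⟩ := hg
  have key : ∀ V' j', DomY (s + 2) B (Bset s (s * u + t) u t j) (Lset (s + 2) V' j') →
      Rk 𝒞 m (Lset (s + 2) V' j') n → Rk 𝒞 m (Lset s (s * u + t) j) n := fun V' j' h1 h2 =>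
    Rk.compressY (s + 1) B hK (step_one rfl hB hu) (Rk.compressY (s + 2) B hK h1 h2)
  rcases Nat.lt_or_ge t u with h1 | h1
  · obtain ⟨w, rfl⟩ : ∃ w, u = w + 1 := ⟨u - 1, by omega⟩
    rcases Nat.lt_or_ge (t + j) (w + 1) with h2 | h2
    · rcases Nat.lt_or_ge (s + 1 + t) (w + 1) with h3 | h3
      · -- boundary case
        have hw : w = s + 1 := by split_ifs at hu <;> omega
        have ht0 : t = 0 := by omega
        have hj0 : 0 < j := by
          by_contra hj0
          rw [if_neg hj0] at hu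
          omega
        subst hw
        subst ht0
        refine ⟨s, s + 1, j - 1, ⟨by omega, by omega, by omega⟩, by omega, ?_, ?_⟩
        · obtain ⟨j, rfl⟩ : ∃ i, j = i + 1 := ⟨j - 1, by omega⟩
          rw [Nat.add_sub_cancel]
          unfold sz
          ring
        · refine key _ _ ?_
          have := step_two_d (s := s) (V := s * (s + 2)) (j := j) (B := B) rfl hB hj0 (by omega)
          convert this using 2 <;> ring
      · refine ⟨w, s + 1 + t - (w + 1), t + j, ⟨by omega, by omega, by omega⟩, by omega, ?_, ?_⟩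
        · obtain ⟨x, hx⟩ : ∃ x, s + 1 + t = w + 1 + x := Nat.exists_eq_add_of_le h3
          have hx' : s + 1 + t - (w + 1) = x := by omega
          rw [hx']
          unfold sz
          zify at hx ⊢
          linear_combination 2 * (-(w : ℤ) - 1) * hx
        · refine key _ _ ?_
          have := step_two_b (s := s) (V := s * (w + 1) + t) (j := j) (B := B) rfl hB h2 h3
          convert this using 2
          have e1 : (s + 2) * w = s * w + 2 * w := by ring
          have e2 : s * (w + 1) = s * w + s := by ring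
          omega
    · refine ⟨w, s + 2 + t - (w + 1), t + j - (w + 1), ⟨by omega, by omega, by omega⟩, by omega,
        ?_, ?_⟩
      · obtain ⟨x, hx⟩ : ∃ x, s + 2 + t = w + 1 + x := Nat.exists_eq_add_of_le (by omega)
        have hx' : s + 2 + t - (w + 1) = x := by omega
        obtain ⟨y, hy⟩ : ∃ y, t + j = w + 1 + y := Nat.exists_eq_add_of_le (by omega)
        have hy' : t + j - (w + 1) = y := by omega
        rw [hx', hy']
        unfold sz
        zify at hx hy ⊢
        linear_combination 2 * (-(w : ℤ) - 1) * hx - 2 * hy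
      · refine key _ _ ?_
        have := step_two_c (s := s) (V := s * (w + 1) + t) (j := j) (B := B) rfl hB hj h1 h2
          (by omega)
        convert this using 2
        have e1 : (s + 2) * w = s * w + 2 * w := by ring
        have e2 : s * (w + 1) = s * w + s := by ring
        omega
  · refine ⟨u, t - u, j, ⟨by omega, by omega, by omega⟩, by omega, ?_, ?_⟩
    · obtain ⟨x, rfl⟩ := Nat.exists_eq_add_of_le h1
      rw [Nat.add_sub_cancel_left]
      unfold sz
      ring
    · refine key _ _ ?_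
      have := step_two_a (s := s) (V := s * u + t) (j := j) (B := B) rfl hB ht hj h1
      convert this using 2
      have e1 : (s + 2) * u = s * u + 2 * u := by ring
      omega

theorem Lset_boundary {s : ℕ} (hs : 0 < s) :
    Lset s (s * (s + 2)) 0 = Lset s (s * (s + 1) + (s - 1)) (s + 2) := by
  have e1 : s * (s + 2) = s * s + 2 * s := by ring
  have e2 : s * (s + 1) = s * s + s := by ring
  ext ⟨i, l⟩
  rw [mem_Lset, mem_Lset]
  constructor
  · intro h
    have h1 : l < s + 2 := by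
      by_contra h1
      have h2 : s * (s + 2) ≤ s * l := Nat.mul_le_mul_left _ (by omega)
      omega
    omega
  · intro h
    omega

theorem chain_step {s u t j : ℕ} (hs : 0 < s) (hg : Good s u t j) (B : ℕ) (hB : u ≤ B)
    (hK : ∀ k : ℕ, 0 < k → k ≤ B → (k : K) ≠ 0) :
    ∃ u' t' j', Good (s + 2) u' t' j' ∧ u' ≤ u ∧ sz (s + 2) u' t' j' = sz s u t j ∧
      (Rk 𝒞 m (Lset (s + 2) ((s + 2) * u' + t') j') n → Rk 𝒞 m (Lset s (s * u + t) j) n) := by
  by_cases hu : u ≤ s + 1 + t + (if 0 < j then 1 else 0)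
  · exact chain_step_aux hs hg hu B hB hK
  · obtain ⟨ht, hj, hu2⟩ := hg
    have hj0 : j = 0 := by
      by_contra h
      rw [if_pos (Nat.pos_of_ne_zero h)] at hu
      omega
    subst hj0
    have ht0 : t = 0 := by
      split_ifs at hu <;> omega
    subst ht0
    have hu' : u = s + 2 := by
      split_ifs at hu <;> omega
    subst hu'
    obtain ⟨u', t', j', h1, h2, h3, h4⟩ := chain_step_aux (𝒞 := 𝒞) (m := m) (n := n) (s := s)
      (u := s + 1) (t := s - 1) (j := s + 2) hs ⟨by omega, by omega, by omega⟩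
      (by rw [if_pos (by omega)]; omega) B (by omega) hK
    refine ⟨u', t', j', h1, by omega, ?_, ?_⟩
    · rw [h3]
      obtain ⟨w, rfl⟩ : ∃ w, s = w + 1 := ⟨s - 1, by omega⟩
      rw [Nat.add_sub_cancel]
      unfold sz
      ring
    · rw [add_zero, Lset_boundary hs]
      exact h4

theorem chain {s : ℕ} (hs : 0 < s) (B : ℕ) (hK : ∀ k : ℕ, 0 < k → k ≤ B → (k : K) ≠ 0) (κ : ℕ) :
    ∀ u t j, Good s u t j → u ≤ B →
    ∃ u' t' j', Good (s + 2 * κ) u' t' j' ∧ u' ≤ u ∧ sz (s + 2 * κ) u' t' j' = sz s u t j ∧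
      (Rk 𝒞 m (Lset (s + 2 * κ) ((s + 2 * κ) * u' + t') j') n →
        Rk 𝒞 m (Lset s (s * u + t) j) n) := by
  induction κ with
  | zero =>
    intro u t j hg _
    exact ⟨u, t, j, hg, le_rfl, rfl, fun h => h⟩
  | succ κ ih =>
    intro u t j hg hB
    obtain ⟨u', t', j', h1, h2, h3, h4⟩ := ih u t j hg hB
    obtain ⟨u'', t'', j'', h1', h2', h3', h4'⟩ := chain_step (𝒞 := 𝒞) (m := m) (n := n)
      (by omega) h1 B (by omega) hK
    exact ⟨u'', t'', j'', h1', by omega, h3'.trans h3, fun h => h4 (h4' h)⟩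

omit [Infinite K] in
theorem Rk.baseL {x : Fin r → K} (hx : x ∈ 𝒞) (hr : 0 < r) (m : ℕ) {u t j : ℕ} (ht : t < r)
    (hj : j ≤ u + 1) (h : sz r u t j = r * m * (m + 1)) :
    Rk 𝒞 m (↑(Lfin r u t j) : Set (ℕ × ℕ)) (Lfin r u t j).card := by
  have h1 : Lfin r u t j = Lfin r m 0 0 :=
    Lfin_eq ht hj hr (by omega) (by rw [h]; unfold sz; ring)
  rw [h1]
  refine Rk.base hx m _ ?_
  rintro ⟨i, l⟩ hp
  rw [Lfin, mem_rowsF] at hp
  obtain ⟨h2, h3⟩ := hp
  rw [if_neg (by omega), add_zero, add_zero] at h3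
  have h4 : l < m := by
    by_contra h5
    have : m - l = 0 := by omega
    rw [this] at h3
    omega
  exact ⟨h4, h3⟩

/-- Full rank of the balanced shape of slope `s` and size `r m (m + 1) / 2`. -/
theorem Rk.balanced {x : Fin r → K} (hx : x ∈ 𝒞) {s κ : ℕ} (hs : 0 < s) (hr : r = s + 2 * κ)
    (m : ℕ) {u t j : ℕ} (ht : t < s) (hj : j ≤ u + 1) (h : sz s u t j = r * m * (m + 1))
    (hc : κ = 0 ∨ r * m * (m + 1) < s * (s + 3) * (s + 4)) (B : ℕ) (hB : u ≤ B)
    (hK : ∀ k : ℕ, 0 < k → k ≤ B → (k : K) ≠ 0) :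
    Rk 𝒞 m (↑(Lfin s u t j) : Set (ℕ × ℕ)) (Lfin s u t j).card := by
  rcases hc with rfl | hc
  · rw [mul_zero, add_zero] at hr
    subst hr
    exact Rk.baseL hx hs m ht hj h
  · have hg : Good s u t j := good_of_sz ht hj (by rw [h]; exact hc)
    obtain ⟨u', t', j', h1, h2, h3, h4⟩ := chain (𝒞 := 𝒞) (m := m) (n := (Lfin s u t j).card)
      hs B hK κ u t j hg hB
    rw [coe_Lfin ht hj]
    refine h4 ?_
    rw [← hr] at h1 h3 ⊢
    rw [← coe_Lfin h1.1 h1.2.1]
    have h5 := Rk.baseL hx (by omega) m h1.1 h1.2.1 (h3.trans h)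
    have h6 : (Lfin r u' t' j').card = (Lfin s u t j).card := by
      have h7 := card_Lfin (s := r) (t := t') h1.2.1
      have h8 := card_Lfin (s := s) (t := t) hj
      omega
    rwa [h6] at h5

end Pool.Agent.H932R2
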