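import Mathlib
import Pool.Agent.H15.G.R_seed8.H932R2.Initial

set_option autoImplicit false

/-!
# Maximal rank for some member of the family
-/

namespace Pool.Agent.H932R2

variable {K : Type*} [Field K] [Infinite K] {r : ℕ} {𝒞 : Set (Fin r → K)} {m n : ℕ}

theorem initial (h𝒞 : AffInv 𝒞) {δ d k b B : ℕ} (hδ : 2 ≤ δ) (hd : d + 1 = δ * k + b)
    (hb' : b ≤ δ) (hY : YY δ b ≤ k) (hB : δ * d ≤ B)
    (hK : ∀ k : ℕ, 0 < k → k ≤ B → (k : K) ≠ 0) :
    ∃ u t j, t < δ * δ ∧ j ≤ u + 1 ∧ sz (δ * δ) u t j = (d + 1) * (d + 2) ∧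
      (Rk 𝒞 m (Lset (δ * δ) (δ * δ * u + t) j) n → Rk 𝒞 m (Tset d) n) := by
  have hdB : d ≤ B := (Nat.le_mul_of_pos_left d (by omega)).trans hB
  have hkB : k ≤ B := by
    rcases k with _ | k
    · omega
    · have h1 : k + 1 ≤ δ * (k + 1) / 2 * 1 := by
        rw [mul_one, Nat.le_div_iff_mul_le (by norm_num)]
        nlinarith
      have h2 : δ * (k + 1) ≥ 2 * (k + 1) := Nat.mul_le_mul_right _ hδ
      omega
  obtain ⟨e, he⟩ : ∃ e, δ = b + e := Nat.exists_eq_add_of_le hb'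
  have hY2 : 2 * YY δ b + e = e * e := by
    rw [he]
    exact YY_two b e
  have hc2 := cc_two δ
  have hcnt := cnt_add δ b
  obtain ⟨c, hc⟩ : ∃ c, c = cc δ := ⟨_, rfl⟩
  obtain ⟨Y, hYd⟩ : ∃ Y, Y = YY δ b := ⟨_, rfl⟩
  rw [← hc] at hc2 hcnt
  rw [← hYd] at hY hY2 hcnt
  have hcs : c < δ * δ := by omega
  have hbs : δ * b ≤ δ * δ := Nat.mul_le_mul_left _ hb'
  have hδδ : 2 * δ ≤ δ * δ := Nat.mul_le_mul_right _ hδ
  obtain ⟨σ, hσ⟩ : ∃ σ, δ * δ = σ + 1 := ⟨δ * δ - 1, by omega⟩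
  have key : ∀ V, V + c = δ * δ * k + δ * b →
      Rk 𝒞 m (Lset (δ * δ) V (Y - (c - δ * b))) n → Rk 𝒞 m (Tset d) n := by
    intro V hV h
    refine Rk.compressY δ B hK (step_M1 (by omega) hdB) ?_
    refine Rk.compressX h𝒞 B hK (step_D (by omega) hd hb' hB) ?_
    rw [← hc, ← hYd, hσ]
    refine Rk.compressY σ B hK (step_E (g := δ * b) rfl hkB) ?_
    rw [← hσ]
    exact Rk.compressY (δ * δ) B hK (step_L (by omega) (by rw [hσ]) (by rw [hV, hσ]) (by omega)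
      hY hkB) h
  rcases Nat.lt_or_ge (δ * b) c with h1 | h1
  · obtain ⟨w, rfl⟩ : ∃ w, k = w + 1 := ⟨k - 1, by omega⟩
    obtain ⟨g, hg⟩ : ∃ g, c = δ * b + g := Nat.exists_eq_add_of_le h1.le
    obtain ⟨t, ht⟩ : ∃ t, δ * δ = g + t := Nat.exists_eq_add_of_le (by omega)
    obtain ⟨j, hj⟩ : ∃ j, Y = g + j := Nat.exists_eq_add_of_le (by omega)
    refine ⟨w, t, j, by omega, by omega, ?_, ?_⟩
    · unfold sz
      rw [hd, show d + 2 = (d + 1) + 1 from rfl, hd]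
      zify at he hY2 hc2 hg ht hj ⊢
      have he' : (e : ℤ) = δ - b := by linarith
      rw [he'] at hY2
      have ht' : (t : ℤ) = δ * δ - g := by linarith
      have hj' : (j : ℤ) = Y - g := by linarith
      have hg' : (g : ℤ) = c - δ * b := by linarith
      rw [ht', hj', hg']
      linear_combination hY2 - ((w : ℤ) + 2) * hc2
    · have := key (δ * δ * w + t) (by
        have e1 : δ * δ * (w + 1) = δ * δ * w + δ * δ := by ring
        omega)
      have h3 : Y - (c - δ * b) = j := by omega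
      rwa [h3] at this
  · obtain ⟨t, ht⟩ : ∃ t, δ * b = c + t := Nat.exists_eq_add_of_le h1
    refine ⟨k, t, Y, by omega, by omega, ?_, ?_⟩
    · unfold sz
      rw [hd, show d + 2 = (d + 1) + 1 from rfl, hd]
      zify at he hY2 hc2 ht ⊢
      have he' : (e : ℤ) = δ - b := by linarith
      rw [he'] at hY2
      have ht' : (t : ℤ) = δ * b - c := by linarith
      rw [ht']
      linear_combination hY2 - ((k : ℤ) + 1) * hc2
    · have := key (δ * δ * k + t) (by omega)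
      have h3 : Y - (c - δ * b) = Y := by omega
      rwa [h3] at this

theorem master (h𝒞 : AffInv 𝒞) {x : Fin r → K} (hx : x ∈ 𝒞) {δ κ d B : ℕ} (hδ : 2 ≤ δ)
    (hr : r = δ * δ + 2 * κ)
    (hc : κ = 0 ∨ r * m * (m + 1) < δ * δ * (δ * δ + 3) * (δ * δ + 4))
    (hd : δ * ((δ - 1) * (δ - 2)) ≤ 2 * d) (hB : δ * d ≤ B) (hBm : r * m ≤ B)
    (hK : ∀ k : ℕ, 0 < k → k ≤ B → (k : K) ≠ 0) :
    (∀ N, (d + 1) * (d + 2) ≤ r * m * (m + 1) → 2 * N = (d + 1) * (d + 2) →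
      Rk 𝒞 m (Tset d) N) ∧
    (∀ N, r * m * (m + 1) ≤ (d + 1) * (d + 2) → 2 * N = r * m * (m + 1) →
      Rk 𝒞 m (Tset d) N) := by
  have hs : 0 < δ * δ := Nat.mul_pos (by omega) (by omega)
  have hdm := Nat.div_add_mod d δ
  have hml := Nat.mod_lt d (show 0 < δ by omega)
  have hY : YY δ (d % δ + 1) ≤ d / δ := by
    by_contra h
    obtain ⟨e, he⟩ : ∃ e, δ = d % δ + 1 + e := Nat.exists_eq_add_of_le hml
    have h1 : 2 * YY δ (d % δ + 1) + e = e * e := by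
      have := YY_two (d % δ + 1) e
      rwa [← he] at this
    have h2 : 2 * (d / δ + 1) + e ≤ e * e := by omega
    obtain ⟨f, hf⟩ : ∃ f, δ = f + 2 := ⟨δ - 2, by omega⟩
    have h3 : e ≤ f + 1 := by omega
    have h4 : 2 * (d / δ + 1) ≤ (f + 1) * f := by
      rcases e with _ | e
      · omega
      · have : (e + 1) * e ≤ (f + 1) * f := Nat.mul_le_mul h3 (by omega)
        have h5 : (e + 1) * (e + 1) = (e + 1) * e + (e + 1) := by ring
        omega
    have h5 : (δ - 1) * (δ - 2) = (f + 1) * f := by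
      rw [hf]
      rfl
    rw [h5] at hd
    have h6 : δ * (2 * (d / δ + 1)) ≤ δ * ((f + 1) * f) := Nat.mul_le_mul_left _ h4
    have h7 : δ * (2 * (d / δ + 1)) = 2 * (δ * (d / δ)) + 2 * δ := by ring
    omega
  have hpar : ∃ N, 2 * N = r * m * (m + 1) := by
    obtain ⟨w, hw⟩ := (Nat.even_mul_succ_self m).two_dvd
    refine ⟨r * w, ?_⟩
    rw [mul_assoc r, hw]
    ring
  have hcard : ∀ {s u t j N : ℕ}, j ≤ u + 1 → sz s u t j = 2 * N → (Lfin s u t j).card = N := by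
    intro s u t j N hj h
    have := card_Lfin (s := s) (t := t) hj
    omega
  have hbal : ∃ u t j, t < δ * δ ∧ j ≤ u + 1 ∧ sz (δ * δ) u t j = r * m * (m + 1) ∧
      Rk 𝒞 m (↑(Lfin (δ * δ) u t j) : Set (ℕ × ℕ)) (Lfin (δ * δ) u t j).card := by
    obtain ⟨N, hN⟩ := hpar
    obtain ⟨u, t, j, ht, hj, h⟩ := exists_param (δ * δ) N hs
    rw [hN] at h
    refine ⟨u, t, j, ht, hj, h, Rk.balanced hx hs hr m ht hj h hc B ?_ hK⟩
    refine le_trans ?_ hBm
    by_contra hu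
    have h1 : 1 * (r * m + 1) * (r * m + 1 + 1) ≤ δ * δ * u * (u + 1) :=
      Nat.mul_le_mul (Nat.mul_le_mul hs (by omega)) (by omega)
    unfold sz at h
    have h2 : r * m * m ≤ r * m * (r * m) := by
      rcases Nat.eq_zero_or_pos r with h0 | h0
      · simp [h0]
      · exact Nat.mul_le_mul_left _ (Nat.le_mul_of_pos_left m h0)
    nlinarith
  obtain ⟨u1, t1, j1, ht1, hj1, hz1, hR1⟩ := hbal
  constructor
  · intro N hle hN
    obtain ⟨u, t, j, ht, hj, hz, himp⟩ := initial (𝒞 := 𝒞) (m := m) (n := N) h𝒞 hδ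
      (show d + 1 = δ * (d / δ) + (d % δ + 1) by omega) hml hY hB hK
    refine himp ?_
    have hcN := hcard hj (hz.trans hN.symm)
    rw [← coe_Lfin ht hj, ← hcN]
    exact hR1.subset (Lfin_subset ht hj ht1 hj1 (by rw [hz, hz1]; exact hle))
  · intro N hle hN
    obtain ⟨u, t, j, ht, hj, hz, himp⟩ := initial (𝒞 := 𝒞) (m := m) (n := N) h𝒞 hδ
      (show d + 1 = δ * (d / δ) + (d % δ + 1) by omega) hml hY hB hK
    refine himp ?_
    rw [← coe_Lfin ht hj]
    have h1 := hcard hj1 (hz1.trans hN.symm)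
    rw [h1] at hR1
    refine hR1.mono ?_
    have := Lfin_subset ht1 hj1 ht hj (by rw [hz, hz1]; exact hle)
    exact_mod_cast this

/-- The numerical condition. -/
def Cond (r m δ κ : ℕ) : Prop :=
  2 ≤ δ ∧ r = δ * δ + 2 * κ ∧ (κ = 0 ∨ r * m * (m + 1) < δ * δ * (δ * δ + 3) * (δ * δ + 4))

omit [Infinite K] in
theorem exists_d0 (r m : ℕ) (hr : 1 ≤ r) (hm : 1 ≤ m) :
    ∃ d, (d + 1) * (d + 2) ≤ r * m * (m + 1) ∧ r * m * (m + 1) < (d + 2) * (d + 3) := by
  have hX : ∀ X : ℕ, X < (X + 1) * (X + 2) := fun X => by nlinarith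
  have h0 : ∃ d, r * m * (m + 1) < (d + 1) * (d + 2) := ⟨r * m * (m + 1), hX _⟩
  have h1 : Nat.find h0 ≠ 0 := by
    intro h
    have := Nat.find_spec h0
    rw [h] at this
    have h2 : 1 * 1 * (1 + 1) ≤ r * m * (m + 1) :=
      Nat.mul_le_mul (Nat.mul_le_mul hr hm) (by omega)
    omega
  obtain ⟨d, hd⟩ := Nat.exists_eq_succ_of_ne_zero h1
  refine ⟨d, ?_, ?_⟩
  · have := Nat.find_min h0 (m := d) (by omega)
    exact not_lt.1 this
  · have := Nat.find_spec h0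
    rw [hd] at this
    exact this

theorem exists_rank (h𝒞 : AffInv 𝒞) {x : Fin r → K} (hx : x ∈ 𝒞) (hr : 10 ≤ r) (hm : 1 ≤ m)
    (hcond : ∃ δ κ, Cond r m δ κ) (hK : ∀ k : ℕ, 0 < k → k ≤ r * (m + 1) → (k : K) ≠ 0) :
    ∃ d, (d + 1) * (d + 2) ≤ r * m * (m + 1) ∧ r * m * (m + 1) < (d + 2) * (d + 3) ∧
      (∀ N, 2 * N = (d + 1) * (d + 2) → Rk 𝒞 m (Tset d) N) ∧
      (∀ N, 2 * N = r * m * (m + 1) → Rk 𝒞 m (Tset (d + 1)) N) := by
  classical
  obtain ⟨d, hd1, hd2⟩ := exists_d0 r m (by omega) hm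
  have hrm : 2 * r ≤ r * m * (m + 1) := by
    have : r * 1 * (1 + 1) ≤ r * m * (m + 1) := Nat.mul_le_mul (Nat.mul_le_mul_left _ hm) (by omega)
    omega
  obtain ⟨κ, hδ, hrδ, hc⟩ := Nat.find_spec hcond
  have hmin := fun δ' => Nat.find_min hcond (m := δ')
  set δ := Nat.find hcond with hδdef
  have hdδ : δ * ((δ - 1) * (δ - 2)) ≤ 2 * d := by
    rcases Nat.lt_or_ge δ 4 with h4 | h4
    · rcases Nat.lt_or_ge δ 3 with h3 | h3
      · have h2 : δ = 2 := by omega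
        rw [h2]
        omega
      · have h3' : δ = 3 := by omega
        rw [h3']
        by_contra h
        have h5 : (d + 2) * (d + 3) ≤ 4 * 5 := Nat.mul_le_mul (by omega) (by omega)
        omega
    · obtain ⟨σ, hσ⟩ : ∃ σ, δ = σ + 2 := ⟨δ - 2, by omega⟩
      have h5 := hmin σ (by omega)
      have h6 : σ * σ * (σ * σ + 3) * (σ * σ + 4) ≤ r * m * (m + 1) := by
        by_contra h7
        refine h5 ⟨κ + 2 * δ - 2, by omega, ?_, Or.inr (by omega)⟩
        rw [hrδ, hσ]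
        have : κ + 2 * (σ + 2) - 2 = κ + 2 * σ + 2 := by omega
        rw [this]
        ring
      rw [hσ]
      have h8 : (σ + 2 - 1) * (σ + 2 - 2) = (σ + 1) * σ := rfl
      rw [h8]
      by_contra h9
      push Not at h9
      obtain ⟨y, rfl⟩ : ∃ y, σ = y + 2 := ⟨σ - 2, by omega⟩
      have h10 : (2 * d + 4) * (2 * d + 6) ≤
          ((y + 2 + 2) * ((y + 2 + 1) * (y + 2)) + 3) * ((y + 2 + 2) * ((y + 2 + 1) * (y + 2)) + 5) :=
        Nat.mul_le_mul (by omega) (by omega)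
      have h11 : (2 * d + 4) * (2 * d + 6) = 4 * ((d + 2) * (d + 3)) := by ring
      have h12 : ((y + 2 + 2) * ((y + 2 + 1) * (y + 2)) + 3) *
          ((y + 2 + 2) * ((y + 2 + 1) * (y + 2)) + 5) <
          4 * ((y + 2) * (y + 2) * ((y + 2) * (y + 2) + 3) * ((y + 2) * (y + 2) + 4)) := by
        zify
        have hy : (0 : ℤ) ≤ y := by positivity
        have h13 : (0 : ℤ) < 4 * ((y + 2) * (y + 2) * ((y + 2) * (y + 2) + 3) *
            ((y + 2) * (y + 2) + 4)) - ((y + 2 + 2) * ((y + 2 + 1) * (y + 2)) + 3) *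
          ((y + 2 + 2) * ((y + 2 + 1) * (y + 2)) + 5) := by
          ring_nf
          positivity
        linarith
      omega
  have hBd : δ * (d + 1) ≤ r * (m + 1) := by
    rw [← Nat.mul_self_le_mul_self_iff]
    have h1 : (d + 1) * (d + 1) ≤ r * ((m + 1) * (m + 1)) := by nlinarith
    have h2 : δ * δ ≤ r := by omega
    calc δ * (d + 1) * (δ * (d + 1)) = (δ * δ) * ((d + 1) * (d + 1)) := by ring
      _ ≤ r * (r * ((m + 1) * (m + 1))) := Nat.mul_le_mul h2 h1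
      _ = r * (m + 1) * (r * (m + 1)) := by ring
  have hBm : r * m ≤ r * (m + 1) := Nat.mul_le_mul_left _ (by omega)
  refine ⟨d, hd1, hd2, fun N hN => ?_, fun N hN => ?_⟩
  · exact (master h𝒞 hx hδ hrδ hc hdδ (le_trans (Nat.mul_le_mul_left _ (by omega)) hBd) hBm hK).1
      N hd1 hN
  · exact (master h𝒞 hx hδ hrδ hc (by omega) hBd hBm hK).2 N hd2.le hN

end Pool.Agent.H932R2
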