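import Mathlib
import Pool.Agent.H15.G.R_seed8.H932R2.Open

set_option autoImplicit false

/-!
# Homogeneous forms and dehomogenisation
-/

namespace Pool.Agent.H932R2

open Polynomial

variable {K : Type*} [Field K]

/-- Dehomogenisation: `F(X₀, X₁, X₂) ↦ F(x, y, 1)` in `K[x][y]`. -/
noncomputable def deh (K : Type*) [Field K] : MvPolynomial (Fin 3) K →ₐ[K] K[X][X] :=
  MvPolynomial.aeval ![C X, X, 1]

theorem deh_X0 : deh K (MvPolynomial.X 0) = C X := by
  simp [deh]

theorem deh_X1 : deh K (MvPolynomial.X 1) = X := by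
  simp [deh]

theorem deh_X2 : deh K (MvPolynomial.X 2) = 1 := by
  simp [deh]

theorem deh_monomial (α : Fin 3 →₀ ℕ) (a : K) :
    deh K (MvPolynomial.monomial α a) = a • mon K (α 0, α 1) := by
  rw [deh, MvPolynomial.aeval_monomial, Finsupp.prod_fintype _ _ (fun i => by simp),
    Fin.prod_univ_three, Algebra.smul_def, mon]
  simp

theorem deh_eq_sum (F : MvPolynomial (Fin 3) K) :
    deh K F = ∑ α ∈ F.support, F.coeff α • mon K (α 0, α 1) := by
  conv_lhs => rw [F.as_sum]
  rw [map_sum]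
  exact Finset.sum_congr rfl fun α _ => deh_monomial α _

theorem sum_eq_of_homog {d : ℕ} {F : MvPolynomial (Fin 3) K} (hF : F.IsHomogeneous d)
    {α : Fin 3 →₀ ℕ} (hα : F.coeff α ≠ 0) : α 0 + α 1 + α 2 = d := by
  have := hF hα
  rw [Finsupp.weight_apply, Finsupp.sum_fintype _ _ (fun i => by simp), Fin.sum_univ_three] at this
  simpa using this

theorem coeff_deh {d : ℕ} {F : MvPolynomial (Fin 3) K} (hF : F.IsHomogeneous d)
    {α : Fin 3 →₀ ℕ} (hα : F.coeff α ≠ 0) :
    ((deh K F).coeff (α 1)).coeff (α 0) = F.coeff α := by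
  classical
  rw [deh_eq_sum, finsetSum_coeff, finsetSum_coeff, Finset.sum_eq_single α]
  · rw [coeff_smul, coeff_smul, coeff_mon, if_pos rfl, smul_eq_mul, mul_one]
  · intro β hβ hne
    rw [coeff_smul, coeff_smul, coeff_mon, if_neg, smul_zero]
    intro h
    rw [Prod.mk.injEq] at h
    apply hne
    have h1 := sum_eq_of_homog hF hα
    have h2 := sum_eq_of_homog hF (MvPolynomial.mem_support_iff.1 hβ)
    ext i
    fin_cases i
    · exact h.1
    · exact h.2
    · show β 2 = α 2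
      omega
  · intro h
    exact absurd (MvPolynomial.mem_support_iff.2 hα) h

theorem deh_mem_mspan {d : ℕ} {F : MvPolynomial (Fin 3) K} (hF : F.IsHomogeneous d) :
    deh K F ∈ mspan K (Tset d) := by
  rw [deh_eq_sum]
  refine Submodule.sum_mem _ fun α hα => Submodule.smul_mem _ _ (Submodule.subset_span
    ⟨_, ?_, rfl⟩)
  have := sum_eq_of_homog hF (MvPolynomial.mem_support_iff.1 hα)
  rw [mem_Tset]
  omega

theorem exists_form {d : ℕ} {f : K[X][X]} (hf : f ∈ mspan K (Tset d)) :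
    ∃ F ∈ MvPolynomial.homogeneousSubmodule (Fin 3) K d, deh K F = f := by
  refine Submodule.span_induction ?_ ?_ ?_ ?_ hf
  · rintro _ ⟨⟨i, l⟩, hp, rfl⟩
    rw [mem_Tset] at hp
    refine ⟨MvPolynomial.X 0 ^ i * MvPolynomial.X 1 ^ l * MvPolynomial.X 2 ^ (d - i - l), ?_, ?_⟩
    · rw [MvPolynomial.mem_homogeneousSubmodule]
      have h := (((MvPolynomial.isHomogeneous_X K (0 : Fin 3)).pow i).mul
        ((MvPolynomial.isHomogeneous_X K (1 : Fin 3)).pow l)).mul
        ((MvPolynomial.isHomogeneous_X K (2 : Fin 3)).pow (d - i - l))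
      convert h using 1
      omega
    · rw [map_mul, map_mul, map_pow, map_pow, map_pow, deh_X0, deh_X1, deh_X2, one_pow, mul_one,
        mon, C_pow]
  · exact ⟨0, Submodule.zero_mem _, map_zero _⟩
  · rintro a b _ _ ⟨A, hA, rfl⟩ ⟨B, hB, rfl⟩
    exact ⟨A + B, Submodule.add_mem _ hA hB, map_add _ _ _⟩
  · rintro c a _ ⟨A, hA, rfl⟩
    exact ⟨c • A, Submodule.smul_mem _ _ hA, map_smul _ _ _⟩

theorem deh_eq_zero {d : ℕ} {F : MvPolynomial (Fin 3) K} (hF : F.IsHomogeneous d)
    (h : deh K F = 0) : F = 0 := by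
  ext α
  rw [MvPolynomial.coeff_zero]
  by_contra hα
  have := coeff_deh hF hα
  rw [h, coeff_zero, coeff_zero] at this
  exact hα this.symm

theorem finrank_forms {d : ℕ} (I : Submodule K (MvPolynomial (Fin 3) K))
    (J : Submodule K K[X][X])
    (h : ∀ F ∈ MvPolynomial.homogeneousSubmodule (Fin 3) K d, F ∈ I ↔ deh K F ∈ J) :
    Module.finrank K ↥(MvPolynomial.homogeneousSubmodule (Fin 3) K d ⊓ I) =
      Module.finrank K ↥(mspan K (Tset d) ⊓ J) := by
  refine LinearEquiv.finrank_eq (LinearEquiv.ofBijective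
    { toFun := fun F => ⟨deh K F.1, deh_mem_mspan F.2.1, (h _ F.2.1).1 F.2.2⟩
      map_add' := fun F G => Subtype.ext (map_add _ _ _)
      map_smul' := fun a F => Subtype.ext (map_smul _ _ _) } ⟨?_, ?_⟩)
  · intro F G hFG
    have h1 : deh K F.1 = deh K G.1 := congrArg Subtype.val hFG
    have h2 : deh K (F.1 - G.1) = 0 := by
      rw [map_sub, h1, sub_self]
    exact Subtype.ext (sub_eq_zero.1 (deh_eq_zero (Submodule.sub_mem _ F.2.1 G.2.1) h2))
  · rintro ⟨f, hf, hf'⟩
    obtain ⟨F, hF, rfl⟩ := exists_form hf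
    exact ⟨⟨F, hF, (h F hF).2 hf'⟩, rfl⟩

end Pool.Agent.H932R2
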